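import Pool.Agent.H77.UX.FIN

/-!
The exact order of growth in Malle's conjecture over all sufficiently large base fields, for four
classes of transitive groups: (a) all elements of least index lie in the second centre; (b) the
elements of least index are the elements of order `p`, and the `p`-part of `G` has an abelian
subgroup of index `p`; (c) `G` is nilpotent, `p` is the prime which divides the order of an element
of least index, and `p ^ 3` does not divide the degree `n`, or `p ^ 5` does not divide the order of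
`G`, or a Sylow `p`-subgroup has an abelian subgroup of index `p`; (d) all elements of least index are conjugate to powers of one of them, of
order `p`, and a normal subgroup `M` of index `p` centralises its intersection with the subgroup
generated by the elements of least index, modulo a normal subgroup `N` with `GoodTower N` and order
prime to `p`. The definitions used in the statement are in `Pool/Agent/H38/ML/Spec.lean`.
-/

open H38.ML.Spec

theorem Pool.Agent.Results.MP_b39724_nt.ExactOrder.result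
    (n : ℕ) (hn : 2 ≤ n) (G : Subgroup (Equiv.Perm (Fin n)))
    (hG : MulAction.IsPretransitive G (Fin n))
    (h : (∀ g : G, g ≠ 1 → ind (g : Equiv.Perm (Fin n)) = indG G →
        ∀ h k : G, k * (g * h * g⁻¹ * h⁻¹) = g * h * g⁻¹ * h⁻¹ * k) ∨
      (∃ p : ℕ, p.Prime ∧ p ∣ Nat.card G ∧
        (∀ g : G, orderOf g = p ↔ g ≠ 1 ∧ ind (g : Equiv.Perm (Fin n)) = indG G) ∧
        ∃ (N : Subgroup G) (_ : N.Normal), GoodTower N ∧ ¬ p ∣ Nat.card N ∧
          ∃ (P F : Type) (_ : Group P) (_ : Group F) (_ : Finite P) (_ : Finite F)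
            (_ : G ⧸ N ≃* P × F), IsPGroup p P ∧ ¬ p ∣ Nat.card F ∧
            ∃ A : Subgroup P, A.index = p ∧ ∀ a ∈ A, ∀ b ∈ A, a * b = b * a) ∨
      (Group.IsNilpotent G ∧ ∃ (p : ℕ) (c : G), p.Prime ∧ p ∣ orderOf c ∧ c ≠ 1 ∧
        ind (c : Equiv.Perm (Fin n)) = indG G ∧
        (¬ p ^ 3 ∣ n ∨ ¬ p ^ 5 ∣ Nat.card G ∨
          ∃ (S : Sylow p G) (A : Subgroup S), A.index = p ∧ ∀ a ∈ A, ∀ b ∈ A, a * b = b * a)) ∨
      ∃ c : G, c ≠ 1 ∧ ind (c : Equiv.Perm (Fin n)) = indG G ∧
        (∀ g : G, g ≠ 1 → ind (g : Equiv.Perm (Fin n)) = indG G →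
          ∃ (h : G) (k : ℕ), h⁻¹ * g * h = c ^ k) ∧
        ∃ N M : Subgroup G, N.Normal ∧ M.Normal ∧ N ≤ M ∧ GoodTower N ∧
          ¬ orderOf c ∣ Nat.card N ∧ M.index = orderOf c ∧
          ∀ m ∈ M, ∀ a ∈ M, a ∈ Subgroup.closure
            {g : G | g ≠ 1 ∧ ind (g : Equiv.Perm (Fin n)) = indG G} → m * a * m⁻¹ * a⁻¹ ∈ N) :
    ∃ K₀ : IntermediateField ℚ (AlgebraicClosure ℚ), NumberField K₀ ∧
      ∀ K : IntermediateField ℚ (AlgebraicClosure ℚ), K₀ ≤ K → ∀ _ : NumberField K,
        (∃ c : ℝ, 0 < c ∧ ∃ B₀ : ℝ, ∀ B : ℝ, B₀ ≤ B →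
          ((⌈c * B ^ (1 / (indG G : ℝ)) *
              Real.log B ^ (betaAll K (AlgebraicClosure ℚ) G - 1)⌉₊ : ℕ) : ℕ∞) ≤
            nK K (AlgebraicClosure ℚ) G B) ∧
        (Group.IsNilpotent G → ∃ C : ℝ, 0 < C ∧ ∃ B₀ : ℝ, ∀ B : ℝ, B₀ ≤ B →
          nK K (AlgebraicClosure ℚ) G B ≤
            ((⌊C * B ^ (1 / (indG G : ℝ)) *
              Real.log B ^ (betaAll K (AlgebraicClosure ℚ) G - 1)⌋₊ : ℕ) : ℕ∞)) :=
  H77.UX.fin_all n hn G hG h
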