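import Pool.Agent.H48.T3.Fin

/-!
The asymptotic of Malle's conjecture (question Q1) for quartic fields with Galois group `A_4`, over
every number field `K` which contains a primitive 12th root of unity (so `K₀ = ℚ(ζ_12)`). The
definitions used in the statement are in `Pool/Agent/H38/ML/Spec.lean`.
-/

open H38.ML.Spec

theorem Pool.Agent.Results.MP_b39724_nt.MalleA4Quartic.result
    (K : IntermediateField ℚ (AlgebraicClosure ℚ)) (hK : NumberField K)
    (ζ : K) (hζ : IsPrimitiveRoot ζ 12) :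
    indG (alternatingGroup (Fin 4)) = 2 ∧
    betaAll K (AlgebraicClosure ℚ) (alternatingGroup (Fin 4)) = 3 ∧
    (∀ B : ℝ, nK K (AlgebraicClosure ℚ) (alternatingGroup (Fin 4)) B ≠ ⊤) ∧
    ∃ C : ℝ, 0 < C ∧ Filter.Tendsto
      (fun B : ℝ => ((nK K (AlgebraicClosure ℚ) (alternatingGroup (Fin 4)) B).toNat : ℝ) /
        (B ^ (1 / (2 : ℝ)) * Real.log B ^ 2)) Filter.atTop (nhds C) :=
  H48.T3.t3_main K ζ hζ
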