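import Pool.Agent.H48.Short.Exact

/-!
The exact limiting law of the one-sided maximal function of the primes: for every `c > 1` the
proportion of the `n` with `π(n + H) - π(n) ≤ c H / log n` at all scales `0 < H ≤ n` at once is
`1 - 1 / c`.
-/

namespace Pool.Agent.Results.MP_31d0eb_nt.MaximalLaw

/-- For every real `c > 1`, the number of integers `n` in `(X, 2 X]` such that
`π(n + H) - π(n) ≤ c H / log n` for all real `0 < H ≤ n`, divided by `X`, tends to `1 - 1 / c`. -/
theorem result (c : ℝ) (hc : 1 < c) :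
    Filter.Tendsto (fun X : ℕ => ({n : ℕ | X < n ∧ n ≤ 2 * X ∧ ∀ H : ℝ, 0 < H → H ≤ n →
      (((Finset.Ioc n ⌊(n : ℝ) + H⌋₊).filter Nat.Prime).card : ℝ) ≤
        c * (H / Real.log n)}.ncard : ℝ) / X) Filter.atTop (nhds (1 - 1 / c)) :=
  Pool.Agent.H48.Short.exact_upper c hc

end Pool.Agent.Results.MP_31d0eb_nt.MaximalLaw
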