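import Pool.Agent.H48.Wt.Final2

/-!
# Waring's problem with genuine k-th powers and a few shifted k-th powers, for almost every shift
-/

set_option autoImplicit false

open MeasureTheory

theorem Pool.H48.Old.mixedPowersWaring (k u r : ℕ) (hk : 4 ≤ k)
    (hr : max 2 ((k : ℝ) * (1 - 1 / (k : ℝ)) ^ u) + Real.logb 2 k + 1 < r) :
    ∀ᵐ a : Fin r → ℝ, ∀ eta : ℝ, 0 < eta → ∃ T : ℝ, ∀ tau : ℝ, T ≤ tau →
      ∃ (y : Fin u → ℕ) (x : Fin r → ℕ),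
        tau ≤ ∑ i, (y i : ℝ) ^ k + ∑ i, ((x i : ℝ) + a i) ^ k ∧
        ∑ i, (y i : ℝ) ^ k + ∑ i, ((x i : ℝ) + a i) ^ k < tau + eta :=
  Pool.H48.Wt.mixed k u r hk hr
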